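import Pool.Agent.Q260.GX.Spec2
import Pool.Agent.Q260.GM.Zl3
import Pool.Agent.Q213.GM.Lap

set_option autoImplicit false

/-! # GX-CH1: the Riemann zeta function -/

open Complex Filter Topology Set MeasureTheory
open DirichletCharacter (LFunction)

namespace Pool.Agent.Q124.GX

open Pool.Agent.Y23 (Lg one_le_Lg Zt mu zsummable zsum_le)
open Pool.Agent.Q260.GM (pk sx LD_cont LD_bound DD_approx)
open Pool.Agent.Q260.GX

theorem t_CH1 : S_CH1 := by
  intro χ hG
  have hL : LFunction χ = riemannZeta := DirichletCharacter.LFunction_modOne_eq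
  have hRH : RiemannHypothesis := by
    refine Pool.Agent.Q213.GM.RH_of fun s hs h0 => ?_
    rcases lt_or_ge s.re 1 with h | h
    · have := hG s (by rw [hL]; exact h0) (by linarith) h
      linarith
    · exact riemannZeta_ne_zero_of_one_le_re h h0
  refine ⟨?_, ?_, ?_, ?_, ?_⟩
  · intro t
    change Summable fun ρ : {s : ℂ // LFunction χ s = 0 ∧ 0 < s.re ∧ s.re < 1} => (analyticOrderNatAt (LFunction χ) ρ : ℝ) * (1 / (1 + ((ρ : ℂ).im - t) ^ 2))
    rw [hL]
    exact zsummable t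
  · obtain ⟨K, hK, h⟩ := zsum_le
    refine ⟨K, hK, fun t => ?_⟩
    change ∑' ρ : {s : ℂ // LFunction χ s = 0 ∧ 0 < s.re ∧ s.re < 1}, (analyticOrderNatAt (LFunction χ) ρ : ℝ) * (1 / (1 + ((ρ : ℂ).im - t) ^ 2)) ≤ K * Lg t
    rw [hL]
    exact h t
  · intro x hx hx1
    rw [hL]
    exact LD_cont hRH hx hx1
  · obtain ⟨C, hC, h⟩ := LD_bound hRH
    refine ⟨C, hC, fun x hx hx1 t => ?_⟩
    rw [hL]
    exact h x hx hx1 t
  · refine ⟨13, by norm_num, fun x hx hx1 t ht => ?_⟩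
    change |-(deriv (LFunction χ) (sx x t) / LFunction χ (sx x t)).re - (Real.log |t| / 2 -
      ∑' ρ : {s : ℂ // LFunction χ s = 0 ∧ 0 < s.re ∧ s.re < 1}, (analyticOrderNatAt (LFunction χ) ρ : ℝ) * pk x (t - (ρ : ℂ).im))| ≤ 13
    rw [hL]
    exact DD_approx hRH hx hx1 ht

end Pool.Agent.Q124.GX
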