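import Pool.Agent.Q260.GX.Spec2
import Pool.Agent.Q119.HV.Zd
import Pool.Agent.Q162.HV.SY

set_option autoImplicit false

/-! # GX-CHI: from primitive characters to all characters -/

open Complex Filter Topology Set MeasureTheory
open DirichletCharacter (LFunction)

namespace Pool.Agent.Q124.GX

open Pool.Agent.Y23 (Lg one_le_Lg)
open Pool.Agent.Q260.GM (pk sx)
open Pool.Agent.Q260.GX
open Pool.Agent.Q119.HV (logDeriv_factor)
open Pool.Agent.Q162.HV (euler_ne level_iff)

lemma sx_re (x t : ℝ) : (sx x t).re = 1 / 2 + x := by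
  unfold sx
  simp

lemma sx_ne_one {x : ℝ} (hx : x ≤ 1 / 4) (t : ℝ) : sx x t ≠ 1 := by
  intro h
  have := congrArg re h
  rw [sx_re, one_re] at this
  linarith

lemma L_sx_ne {q : ℕ} [NeZero q] {χ : DirichletCharacter ℂ q} (hG : GRH1 χ) {x : ℝ} (hx0 : 0 < x) (hx : x ≤ 1 / 4) (t : ℝ) :
    LFunction χ (sx x t) ≠ 0 := by
  intro h
  have h1 := hG _ h (by rw [sx_re]; linarith) (by rw [sx_re]; linarith)
  rw [sx_re] at h1
  linarith

/-- the Euler factors -/
noncomputable def EF {N : ℕ} (ψ : DirichletCharacter ℂ N) (q : ℕ) (s : ℂ) : ℂ := ∏ p ∈ q.primeFactors, (1 - ψ p * (p : ℂ) ^ (-s))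

lemma EF_diff {N : ℕ} (ψ : DirichletCharacter ℂ N) (q : ℕ) : Differentiable ℂ (EF ψ q) := by
  intro s
  unfold EF
  refine DifferentiableAt.fun_finsetProd fun p hp => ?_
  have hp0 : (p : ℂ) ≠ 0 := by
    exact_mod_cast (Nat.prime_of_mem_primeFactors hp).ne_zero
  apply DifferentiableAt.const_sub
  apply DifferentiableAt.const_mul
  exact DifferentiableAt.const_cpow (by fun_prop) (Or.inl hp0)

lemma EF_ne {N : ℕ} (ψ : DirichletCharacter ℂ N) (q : ℕ) {s : ℂ} (hs : 0 < s.re) : EF ψ q s ≠ 0 :=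
  Finset.prod_ne_zero_iff.2 fun _ hp => euler_ne ψ (Nat.prime_of_mem_primeFactors hp) hs

lemma fac {q : ℕ} [NeZero q] (χ : DirichletCharacter ℂ q) [NeZero χ.conductor] {s : ℂ} (hs1 : s ≠ 1) :
    LFunction χ s = LFunction χ.primitiveCharacter s * EF χ.primitiveCharacter q s := by
  have h := DirichletCharacter.LFunction_changeLevel χ.conductor_dvd_level χ.primitiveCharacter (s := s) (Or.inr hs1)
  rwa [χ.changeLevel_primitiveCharacter] at h

lemma fac_ev {q : ℕ} [NeZero q] (χ : DirichletCharacter ℂ q) [NeZero χ.conductor] {s : ℂ} (hs1 : s ≠ 1) :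
    LFunction χ =ᶠ[𝓝 s] LFunction χ.primitiveCharacter * EF χ.primitiveCharacter q := by
  filter_upwards [isOpen_ne.mem_nhds hs1] with w hw
  exact fac χ hw

lemma L_an {q : ℕ} [NeZero q] (χ : DirichletCharacter ℂ q) {s : ℂ} (hs : s ≠ 1) : AnalyticAt ℂ (LFunction χ) s :=
  H370.DL.analyticAt_L hs

lemma ord_lev {q : ℕ} [NeZero q] (χ : DirichletCharacter ℂ q) [NeZero χ.conductor] {s : ℂ} (hs : 0 < s.re) (hs1 : s ≠ 1) :
    analyticOrderNatAt (LFunction χ) s = analyticOrderNatAt (LFunction χ.primitiveCharacter) s := by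
  have hE : AnalyticAt ℂ (EF χ.primitiveCharacter q) s := (EF_diff _ q).analyticAt s
  unfold analyticOrderNatAt
  rw [analyticOrderAt_congr (fac_ev χ hs1), analyticOrderAt_mul (L_an _ hs1) hE,
    hE.analyticOrderAt_eq_zero.mpr (EF_ne _ q hs), add_zero]

lemma ld_lev {q : ℕ} [NeZero q] (χ : DirichletCharacter ℂ q) [NeZero χ.conductor] {s : ℂ} (hs : 1 / 2 ≤ s.re) (hs1 : s ≠ 1)
    (hL : LFunction χ.primitiveCharacter s ≠ 0) :
    ‖deriv (LFunction χ) s / LFunction χ s - deriv (LFunction χ.primitiveCharacter) s / LFunction χ.primitiveCharacter s‖ ≤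
      ∑ p ∈ q.primeFactors, Real.log p / (Real.sqrt p - 1) := by
  have hfp : ∀ p ∈ q.primeFactors, 1 - χ.primitiveCharacter p * (p : ℂ) ^ (-s) ≠ 0 ∧
      DifferentiableAt ℂ (fun s : ℂ => 1 - χ.primitiveCharacter p * (p : ℂ) ^ (-s)) s ∧
      ‖logDeriv (fun s : ℂ => 1 - χ.primitiveCharacter p * (p : ℂ) ^ (-s)) s‖ ≤ Real.log p / (Real.sqrt p - 1) :=
    fun p hp => logDeriv_factor (Nat.prime_of_mem_primeFactors hp) (DirichletCharacter.norm_le_one _ _) hs
  have h1 : logDeriv (LFunction χ) s = logDeriv (LFunction χ.primitiveCharacter) s +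
      ∑ p ∈ q.primeFactors, logDeriv (fun s : ℂ => 1 - χ.primitiveCharacter p * (p : ℂ) ^ (-s)) s := by
    rw [(logDeriv_congr_nhds (fac_ev χ hs1)).eq_of_nhds]
    have h2 : logDeriv (LFunction χ.primitiveCharacter * EF χ.primitiveCharacter q) s =
        logDeriv (LFunction χ.primitiveCharacter) s + logDeriv (EF χ.primitiveCharacter q) s :=
      logDeriv_mul s hL (EF_ne _ q (by linarith)) (L_an _ hs1).differentiableAt (EF_diff _ q s)
    rw [h2]
    congr 1
    exact logDeriv_prod (s := q.primeFactors) (f := fun p (s : ℂ) => 1 - χ.primitiveCharacter p * (p : ℂ) ^ (-s))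
      (x := s) (fun p hp => (hfp p hp).1) (fun p hp => (hfp p hp).2.1)
  have h3 : deriv (LFunction χ) s / LFunction χ s - deriv (LFunction χ.primitiveCharacter) s / LFunction χ.primitiveCharacter s =
      ∑ p ∈ q.primeFactors, logDeriv (fun s : ℂ => 1 - χ.primitiveCharacter p * (p : ℂ) ^ (-s)) s := by
    rw [← logDeriv_apply, ← logDeriv_apply, h1]
    ring
  rw [h3]
  exact (norm_sum_le _ _).trans (Finset.sum_le_sum fun p hp => (hfp p hp).2.2)

theorem chi_of_prim {q : ℕ} [NeZero q] (χ : DirichletCharacter ℂ q) [NeZero χ.conductor] (hG : GRH1 χ)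
    (hG' : GRH1 χ.primitiveCharacter) (h : Chi χ.primitiveCharacter) : Chi χ := by
  have hne1 : ∀ s : ZC χ, (s : ℂ) ≠ 1 := fun s h1 => by
    have := s.2.2.2
    rw [h1, one_re] at this
    linarith
  have hne1' : ∀ s : ZC χ.primitiveCharacter, (s : ℂ) ≠ 1 := fun s h1 => by
    have := s.2.2.2
    rw [h1, one_re] at this
    linarith
  have hiff : ∀ s : ℂ, (LFunction χ s = 0 ∧ 0 < s.re ∧ s.re < 1) ↔
      (LFunction χ.primitiveCharacter s = 0 ∧ 0 < s.re ∧ s.re < 1) := by
    intro s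
    refine and_congr_left fun hs => ?_
    refine level_iff χ hs.1 fun h1 => ?_
    have := hs.2
    rw [h1, one_re] at this
    linarith
  let e : ZC χ ≃ ZC χ.primitiveCharacter := Equiv.subtypeEquivRight hiff
  have he : ∀ z : ZC χ, ((e z : ZC χ.primitiveCharacter) : ℂ) = z := fun z => rfl
  have hord : ∀ z : ZC χ, analyticOrderNatAt (LFunction χ) z = analyticOrderNatAt (LFunction χ.primitiveCharacter) z :=
    fun z => ord_lev χ z.2.2.1 (hne1 z)
  have hsum : ∀ f : ℂ → ℝ, ∑' ρ : ZC χ, (analyticOrderNatAt (LFunction χ) ρ : ℝ) * f ρ =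
      ∑' ρ : ZC χ.primitiveCharacter, (analyticOrderNatAt (LFunction χ.primitiveCharacter) ρ : ℝ) * f ρ := by
    intro f
    rw [← e.tsum_eq]
    refine tsum_congr fun z => ?_
    rw [hord, he]
  set D : ℝ := ∑ p ∈ q.primeFactors, Real.log p / (Real.sqrt p - 1) with hD
  have hD0 : 0 ≤ D := by
    refine Finset.sum_nonneg fun p hp => ?_
    have hp1 : (1 : ℝ) < p := by exact_mod_cast (Nat.prime_of_mem_primeFactors hp).one_lt
    have hsq : 1 < Real.sqrt p := by
      rw [Real.lt_sqrt zero_le_one]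
      simpa using hp1
    exact div_nonneg (Real.log_nonneg hp1.le) (by linarith)
  have hld : ∀ x : ℝ, 0 < x → x ≤ 1 / 4 → ∀ t : ℝ, ‖deriv (LFunction χ) (sx x t) / LFunction χ (sx x t) -
      deriv (LFunction χ.primitiveCharacter) (sx x t) / LFunction χ.primitiveCharacter (sx x t)‖ ≤ D := by
    intro x hx hx1 t
    exact ld_lev χ (by rw [sx_re]; linarith) (sx_ne_one hx1 t) (L_sx_ne hG' hx hx1 t)
  refine ⟨?_, ?_, ?_, ?_, ?_⟩
  · intro t
    rw [← e.symm.summable_iff]
    refine (h.zs t).congr fun z => ?_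
    simp only [Function.comp_apply]
    have e1 : ((e.symm z : ZC χ) : ℂ) = z := rfl
    rw [hord, e1]
  · obtain ⟨K, hK, hK1⟩ := h.zl
    refine ⟨K, hK, fun t => ?_⟩
    rw [hsum fun s => 1 / (1 + (s.im - t) ^ 2)]
    exact hK1 t
  · intro x hx hx1
    rw [continuous_iff_continuousAt]
    intro t
    have hsxc : Continuous fun t : ℝ => sx x t := by unfold sx; fun_prop
    have ha := L_an χ (sx_ne_one hx1 t)
    have h1 : ContinuousAt (fun t : ℝ => deriv (LFunction χ) (sx x t)) t :=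
      ContinuousAt.comp (g := deriv (LFunction χ)) (f := fun t : ℝ => sx x t) ha.deriv.continuousAt hsxc.continuousAt
    have h2 : ContinuousAt (fun t : ℝ => LFunction χ (sx x t)) t :=
      ContinuousAt.comp (g := LFunction χ) (f := fun t : ℝ => sx x t) ha.continuousAt hsxc.continuousAt
    exact h1.div h2 (L_sx_ne hG hx hx1 t)
  · obtain ⟨C, hC, hC1⟩ := h.ldb
    refine ⟨C + D, by linarith, fun x hx hx1 t => ?_⟩
    have h1 := hC1 x hx hx1 t
    have h2 := hld x hx hx1 t
    have h3 : ‖deriv (LFunction χ) (sx x t) / LFunction χ (sx x t)‖ ≤ D + C * Lg t / x := by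
      have e1 : deriv (LFunction χ) (sx x t) / LFunction χ (sx x t) = (deriv (LFunction χ) (sx x t) / LFunction χ (sx x t) -
        deriv (LFunction χ.primitiveCharacter) (sx x t) / LFunction χ.primitiveCharacter (sx x t)) +
        deriv (LFunction χ.primitiveCharacter) (sx x t) / LFunction χ.primitiveCharacter (sx x t) := by ring
      rw [e1]
      exact (norm_add_le _ _).trans (add_le_add h2 h1)
    refine h3.trans ?_
    have hl := one_le_Lg t
    have h4 : 1 ≤ Lg t / x := by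
      rw [one_le_div hx]
      linarith
    have h5 : D ≤ D * (Lg t / x) := by nlinarith
    calc D + C * Lg t / x ≤ D * (Lg t / x) + C * Lg t / x := by linarith
      _ = (C + D) * Lg t / x := by ring
  · obtain ⟨A, hA, hA1⟩ := h.ldp
    refine ⟨A + D, by linarith, fun x hx hx1 t ht => ?_⟩
    have h1 := hA1 x hx hx1 t ht
    have h2 := (abs_re_le_norm _).trans (hld x hx hx1 t)
    rw [sub_re] at h2
    rw [hsum fun s => pk x (t - s.im)]
    rw [abs_le] at h1 h2 ⊢
    constructor <;> linarith [h1.1, h1.2, h2.1, h2.2]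

theorem t_CHI (h1 : S_CHP) (h2 : S_CH1) : S_CHI := by
  have key : ∀ (N : ℕ) [NeZero N] (ψ : DirichletCharacter ℂ N), ψ.IsPrimitive → GRH1 ψ → Chi ψ := by
    intro N _ ψ hψ hG
    rcases eq_or_ne N 1 with h | h
    · subst h
      exact h2 ψ hG
    · exact h1 N ψ (by have := NeZero.ne N; omega) hψ hG
  intro q _ χ hG
  have : NeZero χ.conductor := ⟨by
    intro h
    have h1 := χ.conductor_dvd_level
    rw [h] at h1
    exact NeZero.ne q (zero_dvd_iff.1 h1)⟩
  have hG' : GRH1 χ.primitiveCharacter := by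
    intro s hs h0 h1
    have hs1 : s ≠ 1 := fun h => by
      rw [h, one_re] at h1
      linarith
    exact hG s ((level_iff χ h0 hs1).2 hs) h0 h1
  exact chi_of_prim χ hG hG' (key _ χ.primitiveCharacter χ.primitiveCharacter_isPrimitive hG')

end Pool.Agent.Q124.GX
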