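import Pool.Agent.Q119.HV.Zdb

set_option autoImplicit false

/-! # GX-CHP: preliminaries on the completed L-function of a primitive character -/

open Complex Filter Topology Set MeasureTheory
open DirichletCharacter (completedLFunction gammaFactor rootNumber LFunction)

namespace Pool.Agent.Q124.GX

open H370 H370.DL H370.DG H429.GP H855R2.SF Pool.Agent.Q119.HV

variable {N : ℕ} [NeZero N] {ψ : DirichletCharacter ℂ N}

lemma L_ne {χ : DirichletCharacter ℂ N} (h1 : χ ≠ 1) (hG : ∀ s : ℂ, LFunction χ s = 0 → 0 < s.re → s.re < 1 → s.re = 1 / 2) :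
    ∀ s : ℂ, 1 / 2 < s.re → LFunction χ s ≠ 0 := by
  intro s hs h0
  rcases lt_or_ge s.re 1 with h | h
  · have := hG s h0 (by linarith) h
    linarith
  · exact DirichletCharacter.LFunction_ne_zero_of_one_le_re χ (Or.inl h1) h h0

/-- the cofactor -/
noncomputable def U (ψ : DirichletCharacter ℂ N) (w : ℂ) : ℂ := cc ψ * (N : ℂ) ^ (w / 2) * Gammaℝ (1 / 2 + w + aa ψ)

lemma X_eq_U (hN : 1 < N) {z : ℂ} (hz : -(1 / 2) < z.re) : X ψ z = U ψ z * LFunction ψ (1 / 2 + z) := by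
  rw [X_eq hN hz, U, sub_neg_eq_add]
  ring

lemma U_ne (hψ : ψ.IsPrimitive) {z : ℂ} (hz : -(1 / 2) < z.re) : U ψ z ≠ 0 := by
  refine mul_ne_zero (mul_ne_zero (cc_ne hψ) ?_) ?_
  · rw [Ne, cpow_eq_zero_iff]
    exact fun h => Nne h.1
  · apply Gammaℝ_ne_zero_of_re_pos
    have := aa_re_nonneg (χ := ψ)
    rw [add_re, add_re, half_re]
    linarith

lemma U_an {z : ℂ} (hz : -(1 / 2) < z.re) : AnalyticAt ℂ (U ψ) z := by
  have hmem : {z : ℂ | -(1 / 2) < z.re} ∈ 𝓝 z :=
    (isOpen_lt continuous_const continuous_re).mem_nhds (by show -(1 / 2) < z.re; linarith)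
  rw [analyticAt_iff_eventually_differentiableAt]
  filter_upwards [hmem] with w hw
  have hw' : -(1 / 2) < w.re := hw
  have hG : Gammaℝ (1 / 2 + w + aa ψ) ≠ 0 := by
    apply Gammaℝ_ne_zero_of_re_pos
    have := aa_re_nonneg (χ := ψ)
    rw [add_re, add_re, half_re]
    linarith
  have hGd : DifferentiableAt ℂ Gammaℝ (1 / 2 + w + aa ψ) := by
    have h := (differentiable_Gammaℝ_inv (1 / 2 + w + aa ψ)).inv (inv_ne_zero hG)
    have e : (fun s : ℂ => (Gammaℝ s)⁻¹)⁻¹ = Gammaℝ := by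
      funext w
      simp
    rwa [e] at h
  have d1 : DifferentiableAt ℂ (fun w : ℂ => Gammaℝ (1 / 2 + w + aa ψ)) w :=
    DifferentiableAt.comp (g := Gammaℝ) (f := fun w : ℂ => 1 / 2 + w + aa ψ) w hGd (by fun_prop)
  have d3 : DifferentiableAt ℂ (fun w : ℂ => cc ψ * (N : ℂ) ^ (w / 2)) w := by
    apply DifferentiableAt.const_mul
    apply DifferentiableAt.const_cpow _ (Or.inl Nne)
    fun_prop
  exact d3.mul d1

lemma ord_eq (hN : 1 < N) (hψ : ψ.IsPrimitive) {z : ℂ} (hz : -(1 / 2) < z.re) :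
    analyticOrderNatAt (X ψ) z = analyticOrderNatAt (LFunction ψ) (1 / 2 + z) := by
  have h1 := ne_one_of_prim hN hψ
  have hmem : {z : ℂ | -(1 / 2) < z.re} ∈ 𝓝 z :=
    (isOpen_lt continuous_const continuous_re).mem_nhds (by show -(1 / 2) < z.re; linarith)
  have hev : X ψ =ᶠ[𝓝 z] U ψ * (fun w => LFunction ψ (1 / 2 + w)) := by
    filter_upwards [hmem] with w hw
    rw [X_eq_U hN hw]
    rfl
  have hLa : AnalyticAt ℂ (LFunction ψ) (1 / 2 + z) :=
    (DirichletCharacter.differentiable_LFunction h1).analyticAt _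
  have hsh : AnalyticAt ℂ (fun w : ℂ => 1 / 2 + w) z := by fun_prop
  have hde : deriv (fun w : ℂ => 1 / 2 + w) z ≠ 0 := by
    have : HasDerivAt (fun w : ℂ => 1 / 2 + w) 1 z := (hasDerivAt_id z).const_add (1 / 2)
    rw [this.deriv]
    exact one_ne_zero
  have hcomp : AnalyticAt ℂ (fun w => LFunction ψ (1 / 2 + w)) z :=
    AnalyticAt.fun_comp (f := fun w : ℂ => 1 / 2 + w) (g := LFunction ψ) hLa hsh
  unfold analyticOrderNatAt
  rw [analyticOrderAt_congr hev, analyticOrderAt_mul (U_an hz) hcomp,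
    (U_an hz).analyticOrderAt_eq_zero.mpr (U_ne hψ hz), zero_add]
  congr 1
  have := analyticOrderAt_comp_of_deriv_ne_zero (f := LFunction ψ) hsh hde
  exact this

lemma X_zero_re (hN : 1 < N) (hψ : ψ.IsPrimitive) (hL : ∀ s : ℂ, 1 / 2 < s.re → LFunction ψ s ≠ 0) {s : ℂ}
    (hs : X ψ s = 0) : s.re = 0 := by
  rcases lt_trichotomy s.re 0 with h | h | h
  · exfalso
    refine X_zero hN hψ hL (z := -((starRingEnd ℂ) s)) (by rw [neg_re, conj_re]; linarith) ?_
    rw [X_sym hN hψ, hs, map_zero]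
  · exact h
  · exact absurd hs (X_zero hN hψ hL h)

/-- the zeros -/
noncomputable def zEquiv (hN : 1 < N) (hψ : ψ.IsPrimitive)
    (hG : ∀ s : ℂ, LFunction ψ s = 0 → 0 < s.re → s.re < 1 → s.re = 1 / 2) :
    {z : ℂ // X ψ z = 0} ≃ {s : ℂ // LFunction ψ s = 0 ∧ 0 < s.re ∧ s.re < 1} where
  toFun z := ⟨1 / 2 + z.1, by
    have hL := L_ne (ne_one_of_prim hN hψ) hG
    have h0 := X_zero_re hN hψ hL z.2
    have h1 := z.2
    rw [X_eq_U hN (by linarith)] at h1
    have h2 := (mul_eq_zero.1 h1).resolve_left (U_ne hψ (by linarith))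
    refine ⟨h2, ?_, ?_⟩
    · rw [add_re, half_re, h0]; norm_num
    · rw [add_re, half_re, h0]; norm_num⟩
  invFun s := ⟨s.1 - 1 / 2, by
    have h := hG s.1 s.2.1 s.2.2.1 s.2.2.2
    have h0 : (s.1 - 1 / 2).re = 0 := by rw [sub_re, half_re, h]; norm_num
    rw [X_eq_U hN (by linarith)]
    have e : (1 / 2 : ℂ) + (s.1 - 1 / 2) = s.1 := by ring
    rw [e, s.2.1, mul_zero]⟩
  left_inv z := by
    apply Subtype.ext
    simp
  right_inv s := by
    apply Subtype.ext
    simp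

/-- a bound for the logarithmic derivative to the right -/
lemma ld_right {χ : DirichletCharacter ℂ N} : ∃ C : ℝ, 0 < C ∧ ∀ t : ℝ, ‖deriv (LFunction χ) (⟨3 / 2, t⟩ : ℂ) / LFunction χ (⟨3 / 2, t⟩ : ℂ)‖ ≤ C := by
  have hs : Summable fun n : ℕ => ArithmeticFunction.vonMangoldt n * (n : ℝ) ^ (-(3 / 2 : ℝ)) := by
    have h := (ArithmeticFunction.LSeriesSummable_vonMangoldt (s := (3 / 2 : ℝ)) (by simp; norm_num)).norm
    refine h.congr fun n => ?_
    rcases eq_or_ne n 0 with rfl | hn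
    · simp
    · rw [LSeries.term_of_ne_zero hn, norm_div, norm_natCast_cpow_of_pos (Nat.pos_of_ne_zero hn), Complex.norm_real,
        Real.norm_eq_abs, abs_of_nonneg ArithmeticFunction.vonMangoldt_nonneg, Complex.ofReal_re, Real.rpow_neg (Nat.cast_nonneg n)]
      rfl
  refine ⟨(∑' n : ℕ, ArithmeticFunction.vonMangoldt n * (n : ℝ) ^ (-(3 / 2 : ℝ))) + 1, ?_, fun t => ?_⟩
  · have : 0 ≤ ∑' n : ℕ, ArithmeticFunction.vonMangoldt n * (n : ℝ) ^ (-(3 / 2 : ℝ)) := tsum_nonneg fun n =>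
      mul_nonneg ArithmeticFunction.vonMangoldt_nonneg (by positivity)
    linarith
  · have hre : (1 : ℝ) < (⟨3 / 2, t⟩ : ℂ).re := by norm_num
    have h1 := DirichletCharacter.LSeries_twist_vonMangoldt_eq χ hre
    rw [DirichletCharacter.deriv_LFunction_eq_deriv_LSeries χ hre, DirichletCharacter.LFunction_eq_LSeries χ hre]
    rw [neg_div, eq_neg_iff_add_eq_zero, add_comm, ← eq_neg_iff_add_eq_zero] at h1
    rw [h1, norm_neg]
    refine le_trans ?_ (le_add_of_nonneg_right zero_le_one)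
    unfold LSeries
    refine tsum_of_norm_bounded hs.hasSum fun n => ?_
    rcases eq_or_ne n 0 with rfl | hn
    · simp
    · rw [LSeries.term_of_ne_zero hn, norm_div, norm_natCast_cpow_of_pos (Nat.pos_of_ne_zero hn)]
      simp only [Pi.mul_apply, norm_mul]
      rw [Complex.norm_real, Real.norm_eq_abs, abs_of_nonneg ArithmeticFunction.vonMangoldt_nonneg, Real.rpow_neg (Nat.cast_nonneg n),
        div_eq_mul_inv]
      apply mul_le_mul_of_nonneg_right _ (by positivity)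
      exact mul_le_of_le_one_left ArithmeticFunction.vonMangoldt_nonneg (DirichletCharacter.norm_le_one χ _)

end Pool.Agent.Q124.GX
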