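import Pool.Agent.Q260.GX.Spec2
import Pool.Agent.Q124.GX.ChpA

set_option autoImplicit false

/-! # GX-CHP: facts for a primitive character -/

open Complex Filter Topology Set MeasureTheory
open DirichletCharacter (completedLFunction gammaFactor rootNumber LFunction)

namespace Pool.Agent.Q124.GX

open H370 H370.DL H370.DG H429.GP H855R2.SF Pool.Agent.Q119.HV
open Pool.Agent.Y23 (Lg one_le_Lg)
open Pool.Agent.Q260.GM (pk sx)
open Pool.Agent.Q260.GX

lemma half_add (x t : ℝ) : (1 / 2 : ℂ) + ⟨x, t⟩ = sx x t := by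
  unfold sx
  apply Complex.ext
  · simp
  · simp

lemma kern_cmp (v t : ℝ) : 1 / (1 + (v - t) ^ 2) ≤ (2 * (1 + t ^ 2)) * (1 / (1 + v ^ 2)) := by
  rw [mul_one_div, div_le_div_iff₀ (by positivity) (by positivity)]
  nlinarith [sq_nonneg (v - t - t), sq_nonneg (v - t), sq_nonneg (t * (v - t)), sq_nonneg (v - 2 * t)]

lemma pk_one (t v : ℝ) : pk 1 (t - v) = 1 / (1 + (v - t) ^ 2) := by
  unfold pk
  congr 1
  ring

theorem t_CHP (h1 : S_POI) : S_CHP := by
  intro N _ ψ hN hψ hG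
  have hψ1 := ne_one_of_prim hN hψ
  have hL := L_ne hψ1 hG
  obtain ⟨hs0, c, hc0, hc⟩ := h1 (X ψ) (X_diff hψ1) (X_sym hN hψ) ⟨1, X_zero hN hψ hL (by simp)⟩
    ⟨Real.log N + 2 * (N + 1) + 25, by
      have := Real.log_natCast_nonneg N
      positivity, X_growth hN hψ⟩ (fun s hs => X_zero_re hN hψ hL hs)
  obtain ⟨C1, hC1, hdig⟩ := digam
  obtain ⟨C2, hC2, hright⟩ := ld_right (χ := ψ)
  obtain ⟨C3, hC3, hstir⟩ := logDeriv_Gammaℝ_bound
  have hlN : 0 ≤ Real.log N := Real.log_natCast_nonneg N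
  have hord : ∀ z : {z : ℂ // X ψ z = 0}, analyticOrderNatAt (X ψ) z =
      analyticOrderNatAt (LFunction ψ) ((zEquiv hN hψ hG z : ZC ψ) : ℂ) := fun z =>
    ord_eq hN hψ (by rw [X_zero_re hN hψ hL z.2]; norm_num)
  have him : ∀ z : {z : ℂ // X ψ z = 0}, ((zEquiv hN hψ hG z : ZC ψ) : ℂ).im = (z : ℂ).im := fun z => by
    show (1 / 2 + z.1).im = _
    simp
  have hsum0 : Summable fun ρ : ZC ψ => (analyticOrderNatAt (LFunction ψ) ρ : ℝ) * (1 / (1 + (ρ : ℂ).im ^ 2)) := by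
    rw [← (zEquiv hN hψ hG).summable_iff]
    refine hs0.congr fun z => ?_
    simp only [Function.comp_apply]
    rw [hord, him]
  have hP : ∀ x t : ℝ, ∑' ρ : {z : ℂ // X ψ z = 0}, (analyticOrderNatAt (X ψ) ρ : ℝ) * pk x (t - (ρ : ℂ).im) =
      ∑' ρ : ZC ψ, (analyticOrderNatAt (LFunction ψ) ρ : ℝ) * pk x (t - (ρ : ℂ).im) := by
    intro x t
    rw [← (zEquiv hN hψ hG).tsum_eq]
    refine tsum_congr fun z => ?_
    rw [hord, him]
  -- the logarithmic derivative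
  have hLG : ∀ t : ℝ, Real.log (2 + |t|) ≤ Lg t := fun t => by
    unfold Lg
    exact Real.log_le_log (by positivity) (by linarith)
  have ha0 := aa_re_nonneg (χ := ψ)
  have ha1 := aa_re_le (ψ := ψ)
  have hre : ∀ x t : ℝ, (1 / 2 + (⟨x, t⟩ : ℂ) + aa ψ).re = 1 / 2 + x + (aa ψ).re := fun x t => by
    rw [add_re, add_re, half_re]
  have himm : ∀ x t : ℝ, (1 / 2 + (⟨x, t⟩ : ℂ) + aa ψ).im = t := fun x t => by
    rw [add_im, add_im, aa_im]
    simp
  have hld : ∀ x t : ℝ, 0 < x → logDeriv (X ψ) ⟨x, t⟩ = (1 / 2) * (Real.log N : ℂ) +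
      logDeriv Gammaℝ (1 / 2 + (⟨x, t⟩ : ℂ) + aa ψ) + deriv (LFunction ψ) (sx x t) / LFunction ψ (sx x t) := by
    intro x t hx
    have h := logDeriv_X hN hψ (z := ⟨x, t⟩) hx (hL _ (by rw [add_re, half_re]; show 1 / 2 < 1 / 2 + x; linarith))
    rw [h, logDeriv_apply (LFunction ψ), half_add]
  have hdg : ∀ x t : ℝ, 0 < x → x ≤ 1 → ‖logDeriv Gammaℝ (1 / 2 + (⟨x, t⟩ : ℂ) + aa ψ)‖ ≤ C1 * Lg t := by
    intro x t hx hx1
    have h := hdig (1 / 2 + (⟨x, t⟩ : ℂ) + aa ψ) (by rw [hre]; linarith) (by rw [hre]; linarith)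
    rw [himm] at h
    exact h.trans (mul_le_mul_of_nonneg_left (hLG t) hC1.le)
  have hnN : ‖(1 / 2 : ℂ) * (Real.log N : ℂ)‖ = Real.log N / 2 := by
    rw [norm_mul, Complex.norm_real, Real.norm_eq_abs, abs_of_nonneg hlN]
    simp
    ring
  have hone : ∀ t : ℝ, ‖logDeriv (X ψ) ⟨1, t⟩‖ ≤ (Real.log N / 2 + C1 + C2) * Lg t := by
    intro t
    have hl := one_le_Lg t
    rw [hld 1 t one_pos]
    have hsx : sx 1 t = ⟨3 / 2, t⟩ := by
      unfold sx
      apply Complex.ext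
      · simp; norm_num
      · simp
    refine (norm_add_le _ _).trans ((add_le_add (norm_add_le _ _) le_rfl).trans ?_)
    rw [hnN, hsx]
    have b1 := hdg 1 t one_pos le_rfl
    have b2 := hright t
    nlinarith
  set K : ℝ := Real.log N / 2 + C1 + C2 with hK
  have hK0 : 0 < K := by positivity
  refine ⟨?_, ⟨K, hK0, ?_⟩, ?_, ⟨5 * K + Real.log N / 2 + C1, by positivity, ?_⟩,
    ⟨c + Real.log N / 2 + C3 + 1, by linarith [div_nonneg hlN (zero_le_two (α := ℝ))], ?_⟩⟩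
  · intro t
    refine Summable.of_nonneg_of_le (fun ρ => by positivity) (fun ρ => ?_) (hsum0.mul_left (2 * (1 + t ^ 2)))
    have h := kern_cmp (ρ : ℂ).im t
    calc _ ≤ (analyticOrderNatAt (LFunction ψ) ρ : ℝ) * ((2 * (1 + t ^ 2)) * (1 / (1 + (ρ : ℂ).im ^ 2))) :=
          mul_le_mul_of_nonneg_left h (Nat.cast_nonneg _)
      _ = _ := by ring
  · intro t
    have h := (hc 1 t one_pos le_rfl).1
    rw [hP] at h
    simp only [pk_one] at h
    exact h.trans ((re_le_norm _).trans (hone t))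
  · intro x hx hx1
    have hsxc : Continuous fun t : ℝ => sx x t := by unfold sx; fun_prop
    refine Continuous.div ?_ ?_ ?_
    · have hd : Continuous (deriv (LFunction ψ)) :=
        ((DirichletCharacter.differentiable_LFunction hψ1).contDiff (n := 1)).continuous_deriv le_rfl
      exact hd.comp hsxc
    · exact (DirichletCharacter.differentiable_LFunction hψ1).continuous.comp hsxc
    · intro t
      apply hL
      unfold sx
      simp
      linarith
  · intro x hx hx1 t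
    have hl := one_le_Lg t
    have h2 := (hc x t hx (by linarith)).2.2
    have h3 : (logDeriv (X ψ) ⟨1, t⟩).re ≤ K * Lg t := (re_le_norm _).trans (hone t)
    have h4 : ‖logDeriv (X ψ) ⟨x, t⟩‖ ≤ K * Lg t + 4 / x * (K * Lg t) := by
      have e : logDeriv (X ψ) ⟨x, t⟩ = logDeriv (X ψ) ⟨1, t⟩ + (logDeriv (X ψ) ⟨x, t⟩ - logDeriv (X ψ) ⟨1, t⟩) := by ring
      rw [e]
      refine (norm_add_le _ _).trans (add_le_add (hone t) (h2.trans ?_))
      exact mul_le_mul_of_nonneg_left h3 (by positivity)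
    have e2 : deriv (LFunction ψ) (sx x t) / LFunction ψ (sx x t) = logDeriv (X ψ) ⟨x, t⟩ - (1 / 2) * (Real.log N : ℂ) -
        logDeriv Gammaℝ (1 / 2 + (⟨x, t⟩ : ℂ) + aa ψ) := by
      rw [hld x t hx]; ring
    rw [e2]
    have h5 := hdg x t hx (by linarith)
    have h6 : ‖logDeriv (X ψ) ⟨x, t⟩ - (1 / 2) * (Real.log N : ℂ) - logDeriv Gammaℝ (1 / 2 + (⟨x, t⟩ : ℂ) + aa ψ)‖ ≤
        (K * Lg t + 4 / x * (K * Lg t)) + Real.log N / 2 + C1 * Lg t := by
      refine (norm_sub_le _ _).trans (add_le_add ((norm_sub_le _ _).trans (add_le_add h4 ?_)) h5)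
      rw [hnN]
    refine h6.trans ?_
    rw [le_div_iff₀ hx]
    have e3 : (K * Lg t + 4 / x * (K * Lg t) + Real.log N / 2 + C1 * Lg t) * x =
        (K * Lg t + Real.log N / 2 + C1 * Lg t) * x + 4 * (K * Lg t) := by
      field_simp
      ring
    rw [e3]
    have hA : 0 ≤ K * Lg t + Real.log N / 2 + C1 * Lg t := by positivity
    have hx' : (K * Lg t + Real.log N / 2 + C1 * Lg t) * x ≤ (K * Lg t + Real.log N / 2 + C1 * Lg t) * 1 :=
      mul_le_mul_of_nonneg_left (by linarith) hA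
    have hN' : Real.log N / 2 ≤ Real.log N / 2 * Lg t := by
      have : 0 ≤ Real.log N / 2 := by positivity
      nlinarith
    nlinarith
  · intro x hx hx1 t ht
    have h2 := hc x t hx (by linarith)
    rw [hP] at h2
    obtain ⟨h3, h4, -⟩ := h2
    have e2 : deriv (LFunction ψ) (sx x t) / LFunction ψ (sx x t) = logDeriv (X ψ) ⟨x, t⟩ - (1 / 2) * (Real.log N : ℂ) -
        logDeriv Gammaℝ (1 / 2 + (⟨x, t⟩ : ℂ) + aa ψ) := by
      rw [hld x t hx]; ring
    have h5 := hstir (1 / 2 + (⟨x, t⟩ : ℂ) + aa ψ) (by rw [hre]; linarith) (by rw [hre]; linarith) (by rw [himm]; exact ht)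
    rw [himm] at h5
    have h6 := (abs_re_le_norm _).trans h5
    have e3 : (logDeriv Gammaℝ (1 / 2 + (⟨x, t⟩ : ℂ) + aa ψ) - 1 / 2 * (Real.log |t| : ℂ)).re =
        (logDeriv Gammaℝ (1 / 2 + (⟨x, t⟩ : ℂ) + aa ψ)).re - Real.log |t| / 2 := by
      rw [sub_re]
      congr 1
      rw [show (1 / 2 * (Real.log |t| : ℂ)) = ((Real.log |t| / 2 : ℝ) : ℂ) by push_cast; ring, ofReal_re]
    rw [e3, abs_le] at h6
    have e4 : ((1 / 2) * (Real.log N : ℂ)).re = Real.log N / 2 := by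
      rw [show (1 / 2 * (Real.log N : ℂ)) = ((Real.log N / 2 : ℝ) : ℂ) by push_cast; ring, ofReal_re]
    rw [e2, sub_re, sub_re, e4, abs_le]
    have hcx : c * x ≤ c := by nlinarith
    have hcx0 : 0 ≤ c * x := by positivity
    have hN0 : 0 ≤ Real.log N / 2 := by positivity
    constructor <;> linarith [h6.1, h6.2]

end Pool.Agent.Q124.GX
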